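import Pool.Agent.H78.Bass.Key

namespace Pool.Agent.H78.Bass

variable {M : ℕ}

/-- expectation of `C(z-2,k) U` -/
noncomputable def DD (p a : ℝ) (w : Fin M → Fin M → ℝ) (k : ℕ) (t : ℝ) : ℝ :=
  ex (fun _ => p) w (fun X => Phi a w k Xᶜ) t

/-- expectation of `C(z,k+1)` -/
noncomputable def AA (p : ℝ) (w : Fin M → Fin M → ℝ) (k : ℕ) (t : ℝ) : ℝ :=
  ex (fun _ => p) w (fun X => Psi k Xᶜ) t

/-- the source term -/
noncomputable def src (a : ℝ) (w : Fin M → Fin M → ℝ) (k : ℕ) (Z : Finset (Fin M)) : ℝ :=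
  ((((Z.card - 2).choose k : ℝ) - ((Z.card - 2 - 1).choose k : ℝ)) * exc a w Z ^ 2
      + ((Z.card - 2 - 1).choose k : ℝ) * (if 2 ≤ Z.card then quad a w Z else 0))

theorem DD_deriv {q : ℝ} {w : Fin M → Fin M → ℝ} (hd : ∀ j, w j j = 0)
    (hs : ∀ j, ∑ k, w k j = q) (p a : ℝ) (k : ℕ) (t : ℝ) :
    HasDerivAt (DD p a w k)
      (-(((k : ℝ) + 2) * (p + q) - ((k : ℝ) + 2) * ((k : ℝ) + 1) * a) * DD p a w k t
      + ((k : ℝ) + 2) * ((k : ℝ) + 1) * a * DD p a w (k + 1) t
      + ex (fun _ => p) w (fun X => src a w k Xᶜ) t) t := by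
  have h := ex_hasDeriv (fun _ => p) w (fun X => Phi a w k Xᶜ) t
  have : genF (fun _ => p) w (fun X => Phi a w k Xᶜ) = fun X =>
      (-(((k : ℝ) + 2) * (p + q) - ((k : ℝ) + 2) * ((k : ℝ) + 1) * a) * Phi a w k Xᶜ
      + ((k : ℝ) + 2) * ((k : ℝ) + 1) * a * Phi a w (k + 1) Xᶜ)
      + src a w k Xᶜ := by
    funext X
    have := genF_Phi hd hs p a k Xᶜ
    rw [compl_compl] at this
    rw [this]
    rfl
  rw [this, ex_add, ex_add, ex_smul, ex_smul] at h
  exact h

theorem AA_deriv {q : ℝ} {w : Fin M → Fin M → ℝ} (hd : ∀ j, w j j = 0)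
    (hs : ∀ j, ∑ k, w k j = q) (p a : ℝ) (k : ℕ) (t : ℝ) :
    HasDerivAt (AA p w k)
      (-(((k : ℝ) + 1) * (p + q) - ((k : ℝ) + 1) * k * a) * AA p w k t
      + ((k : ℝ) + 2) * ((k : ℝ) + 1) * a * AA p w (k + 1) t
      + (DD p a w k t + if k = 0 then 0 else DD p a w (k - 1) t)) t := by
  have h := ex_hasDeriv (fun _ => p) w (fun X => Psi k Xᶜ) t
  have : genF (fun _ => p) w (fun X => Psi k Xᶜ) = fun X =>
      (-(((k : ℝ) + 1) * (p + q) - ((k : ℝ) + 1) * k * a) * Psi k Xᶜ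
      + ((k : ℝ) + 2) * ((k : ℝ) + 1) * a * Psi (k + 1) Xᶜ)
      + (Phi a w k Xᶜ + if k = 0 then 0 else Phi a w (k - 1) Xᶜ) := by
    funext X
    have := genF_Psi hd hs p a k Xᶜ
    rw [compl_compl] at this
    rw [this]
  rw [this, ex_add, ex_add, ex_smul, ex_smul, ex_add] at h
  have h2 : ex (fun _ => p) w (fun X => if k = 0 then 0 else Phi a w (k - 1) Xᶜ) t =
      if k = 0 then 0 else DD p a w (k - 1) t := by
    split_ifs with h0
    · unfold ex
      simp
    · rfl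
  rw [h2] at h
  exact h

theorem src_nonneg {a : ℝ} {w : Fin M → Fin M → ℝ} (hQ : ∀ Z, 2 ≤ Z.card → 0 ≤ quad a w Z)
    (k : ℕ) (Z : Finset (Fin M)) : 0 ≤ src a w k Z := by
  unfold src
  refine add_nonneg (mul_nonneg ?_ (sq_nonneg _)) (mul_nonneg (Nat.cast_nonneg _) ?_)
  · rw [sub_nonneg]
    exact_mod_cast Nat.choose_le_choose k (Nat.sub_le _ _)
  · split_ifs with h
    · exact hQ Z h
    · exact le_rfl

theorem exc_univ {q a : ℝ} {w : Fin M → Fin M → ℝ} (hs : ∀ j, ∑ k, w k j = q)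
    (ha : ((M : ℝ) - 1) * a = q) : exc a w Finset.univ = 0 := by
  unfold exc wt
  simp only [hs, Finset.sum_const, Finset.card_univ, Fintype.card_fin, nsmul_eq_mul]
  rw [← ha]
  ring

theorem DD_zero {q a : ℝ} {w : Fin M → Fin M → ℝ} (hs : ∀ j, ∑ k, w k j = q)
    (ha : ((M : ℝ) - 1) * a = q) (p : ℝ) (k : ℕ) : DD p a w k 0 = 0 := by
  unfold DD
  rw [ex_zero, Finset.compl_empty]
  unfold Phi
  rw [exc_univ hs ha, mul_zero]

theorem DD_large (p a : ℝ) (w : Fin M → Fin M → ℝ) {k : ℕ} (hk : M ≤ k) (t : ℝ) (hM : 1 ≤ M) :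
    DD p a w k t = 0 := by
  unfold DD ex
  refine Finset.sum_eq_zero fun X _ => ?_
  have : (Xᶜ).card ≤ M := by
    have := Finset.card_le_univ (Xᶜ)
    simpa using this
  have h0 : Phi a w k Xᶜ = 0 := by
    unfold Phi
    rw [Nat.choose_eq_zero_of_lt (by omega)]
    simp
  change _ * Phi a w k Xᶜ = 0
  rw [h0, mul_zero]

theorem AA_large (p : ℝ) (w : Fin M → Fin M → ℝ) {k : ℕ} (hk : M ≤ k) (t : ℝ) :
    AA p w k t = 0 := by
  unfold AA ex
  refine Finset.sum_eq_zero fun X _ => ?_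
  have : (Xᶜ).card ≤ M := by
    have := Finset.card_le_univ (Xᶜ)
    simpa using this
  have h0 : Psi k Xᶜ = 0 := by
    unfold Psi
    rw [Nat.choose_eq_zero_of_lt (by omega)]
    simp
  change _ * Psi k Xᶜ = 0
  rw [h0, mul_zero]

theorem DD_nonneg {p q a : ℝ} {w : Fin M → Fin M → ℝ} (hM : 1 ≤ M) (hp : 0 ≤ p) (ha0 : 0 ≤ a)
    (hw : IsHomogeneous q w) (ha : ((M : ℝ) - 1) * a = q)
    (hQ : ∀ Z, 2 ≤ Z.card → 0 ≤ quad a w Z) (k : ℕ) {t : ℝ} (ht : 0 ≤ t) :
    0 ≤ DD p a w k t := by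
  have main : ∀ m k : ℕ, M ≤ k + m → ∀ t, 0 ≤ t → 0 ≤ DD p a w k t := by
    intro m
    induction m with
    | zero => intro k hk t _; rw [DD_large p a w (by omega) t hM]
    | succ m ih =>
      intro k hk t ht
      refine compare (c := ((k : ℝ) + 2) * (p + q) - ((k : ℝ) + 2) * ((k : ℝ) + 1) * a)
        (fun s => DD_deriv hw.diag hw.sum p a k s) (fun s hs => ?_)
        (DD_zero hw.sum ha p k).ge ht
      have h1 := ih (k + 1) (by omega) s hs
      have h2 : 0 ≤ ex (fun _ => p) w (fun X => src a w k Xᶜ) s :=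
        ex_nonneg _ _ (fun _ => hp) hw.nonneg (fun X => src_nonneg hQ k _) hs
      have h3 : 0 ≤ ((k : ℝ) + 2) * ((k : ℝ) + 1) * a * DD p a w (k + 1) s := by positivity
      linarith
  exact main M k (by omega) t ht

/-- all functions `C(z-2,k) U` vanish when every set has the internal weight of the complete
network -/
theorem DD_eq_zero {p a : ℝ} {w : Fin M → Fin M → ℝ} (h : ∀ Z, exc a w Z = 0) (k : ℕ) (t : ℝ) :
    DD p a w k t = 0 := by
  unfold DD ex
  refine Finset.sum_eq_zero fun X _ => ?_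
  change _ * (_ * exc a w Xᶜ) = 0
  rw [h, mul_zero, mul_zero]

theorem AA_compare {p q a : ℝ} {w w' : Fin M → Fin M → ℝ} (ha0 : 0 ≤ a)
    (hw : IsHomogeneous q w)
    (hD : ∀ k t, 0 ≤ t → 0 ≤ DD p a w k t) (hw' : IsHomogeneous q w')
    (h' : ∀ Z, exc a w' Z = 0) (k : ℕ) {t : ℝ} (ht : 0 ≤ t) :
    AA p w' k t ≤ AA p w k t := by
  have main : ∀ m k : ℕ, M ≤ k + m → ∀ t, 0 ≤ t → 0 ≤ AA p w k t - AA p w' k t := by
    intro m
    induction m with
    | zero => intro k hk t _; rw [AA_large p w (by omega) t, AA_large p w' (by omega) t]; simp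
    | succ m ih =>
      intro k hk t ht
      refine compare (f := fun s => AA p w k s - AA p w' k s)
        (c := ((k : ℝ) + 1) * (p + q) - ((k : ℝ) + 1) * k * a)
        (fun s => (AA_deriv hw.diag hw.sum p a k s).sub (AA_deriv hw'.diag hw'.sum p a k s))
        (fun s hs => ?_) ?_ ht
      · have h1 := ih (k + 1) (by omega) s hs
        have h2 := hD k s hs
        have h3 : 0 ≤ (if k = 0 then 0 else DD p a w (k - 1) s) := by
          split_ifs
          · exact le_rfl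
          · exact hD _ s hs
        have h4 := DD_eq_zero (p := p) h' k s
        have h5 : (if k = 0 then 0 else DD p a w' (k - 1) s) = 0 := by
          split_ifs
          · rfl
          · exact DD_eq_zero h' _ s
        have h6 : 0 ≤ ((k : ℝ) + 2) * ((k : ℝ) + 1) * a * (AA p w (k + 1) s - AA p w' (k + 1) s) := by
          positivity
        rw [h4, h5]
        nlinarith
      · unfold AA
        rw [ex_zero, ex_zero]
        simp
  have := main M k (by omega) t ht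
  linarith

theorem law_sum {p : ℝ} (w : Fin M → Fin M → ℝ) (t : ℝ) : ∑ Y, law (fun _ => p) w t Y = 1 := by
  have h : ∀ s, HasDerivAt (ex (fun _ : Fin M => p) w (fun _ => 1)) 0 s := by
    intro s
    have := ex_hasDeriv (fun _ : Fin M => p) w (fun _ => 1) s
    have e : ex (fun _ : Fin M => p) w (genF (fun _ => p) w (fun _ => 1)) s = 0 := by
      unfold ex genF
      simp
    rwa [e] at this
  have hc := is_const_of_deriv_eq_zero (fun s => (h s).differentiableAt) (fun s => (h s).deriv) t 0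
  rw [ex_zero] at hc
  unfold ex at hc
  simpa using hc

theorem level_eq {p : ℝ} (hM : 1 ≤ M) (w : Fin M → Fin M → ℝ) (t : ℝ) :
    level (fun _ => p) w t = 1 - AA p w 0 t / M := by
  unfold level AA ex Psi
  have hM' : (M : ℝ) ≠ 0 := by positivity
  have h : ∀ Y : Finset (Fin M), ((Yᶜ).card.choose (0 + 1) : ℝ) = M - Y.card := by
    intro Y
    rw [zero_add, Nat.choose_one_right, Finset.card_compl, Fintype.card_fin,
      Nat.cast_sub (by simpa using Finset.card_le_univ Y)]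
  simp_rw [h, mul_sub]
  rw [Finset.sum_sub_distrib, ← Finset.sum_mul, law_sum]
  field_simp
  ring

end Pool.Agent.H78.Bass
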