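import Pool.Agent.H78.Bass.Defs

open scoped Matrix

namespace Pool.Agent.H78.Bass

variable {M : ℕ}

section gen
attribute [local instance] Matrix.linftyOpNormedRing Matrix.linftyOpNormedAlgebra

/-- expectation of `φ` at time `t` -/
noncomputable def ex (p : Fin M → ℝ) (w : Fin M → Fin M → ℝ) (φ : Finset (Fin M) → ℝ) (t : ℝ) : ℝ :=
  ∑ Y, law p w t Y * φ Y

/-- the generator acting on functions -/
noncomputable def genF (p : Fin M → ℝ) (w : Fin M → Fin M → ℝ) (φ : Finset (Fin M) → ℝ)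
    (X : Finset (Fin M)) : ℝ :=
  ∑ j ∈ Xᶜ, rate p w X j * (φ (insert j X) - φ X)

theorem gen_mul (p : Fin M → ℝ) (w : Fin M → Fin M → ℝ) (φ : Finset (Fin M) → ℝ)
    (X : Finset (Fin M)) : ∑ Y, gen p w X Y * φ Y = genF p w φ X := by
  unfold gen genF
  simp_rw [Finset.sum_mul]
  rw [Finset.sum_comm]
  refine Finset.sum_congr rfl fun j _ => ?_
  have : ∀ Y : Finset (Fin M), rate p w X j * ((if Y = insert j X then (1:ℝ) else 0) -
      (if Y = X then 1 else 0)) * φ Y = (if Y = insert j X then rate p w X j * φ Y else 0) -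
      (if Y = X then rate p w X j * φ Y else 0) := by
    intro Y
    split_ifs <;> ring
  simp_rw [this]
  rw [Finset.sum_sub_distrib]
  simp
  ring

theorem law_hasDeriv (p : Fin M → ℝ) (w : Fin M → Fin M → ℝ) (t : ℝ) (Y : Finset (Fin M)) :
    HasDerivAt (fun s => law p w s Y) (∑ X, law p w t X * gen p w X Y) t := by
  have h := hasDerivAt_exp_smul_const (𝕂 := ℝ) (gen p w) t
  have h2 : HasDerivAt (fun s : ℝ => (NormedSpace.exp (s • gen p w) :
      Matrix (Finset (Fin M)) (Finset (Fin M)) ℝ) ∅ Y)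
      ((NormedSpace.exp (t • gen p w) * gen p w :
      Matrix (Finset (Fin M)) (Finset (Fin M)) ℝ) ∅ Y) t := by
    exact ((hasDerivAt_pi.1 (hasDerivAt_pi.1 h ∅)) Y)
  simpa [Matrix.mul_apply, law] using h2

theorem law_zero (p : Fin M → ℝ) (w : Fin M → Fin M → ℝ) (Y : Finset (Fin M)) :
    law p w 0 Y = if Y = ∅ then 1 else 0 := by
  unfold law
  rw [zero_smul, NormedSpace.exp_zero, Matrix.one_apply]
  simp [eq_comm]

end gen

theorem ex_zero (p : Fin M → ℝ) (w : Fin M → Fin M → ℝ) (φ : Finset (Fin M) → ℝ) :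
    ex p w φ 0 = φ ∅ := by
  unfold ex
  simp [law_zero]

theorem ex_hasDeriv (p : Fin M → ℝ) (w : Fin M → Fin M → ℝ) (φ : Finset (Fin M) → ℝ) (t : ℝ) :
    HasDerivAt (ex p w φ) (ex p w (genF p w φ) t) t := by
  have h : HasDerivAt (fun s => ∑ Y, law p w s Y * φ Y)
      (∑ Y, (∑ X, law p w t X * gen p w X Y) * φ Y) t :=
    HasDerivAt.fun_sum fun Y _ => (law_hasDeriv p w t Y).mul_const (φ Y)
  have h2 : (∑ Y, (∑ X, law p w t X * gen p w X Y) * φ Y) = ex p w (genF p w φ) t := by
    unfold ex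
    simp_rw [← gen_mul, Finset.mul_sum, Finset.sum_mul]
    rw [Finset.sum_comm]
    refine Finset.sum_congr rfl fun X _ => Finset.sum_congr rfl fun Y _ => by ring
  rw [← h2]
  exact h

theorem ex_add (p : Fin M → ℝ) (w : Fin M → Fin M → ℝ) (φ ψ : Finset (Fin M) → ℝ) (t : ℝ) :
    ex p w (fun X => φ X + ψ X) t = ex p w φ t + ex p w ψ t := by
  unfold ex
  simp_rw [mul_add]
  rw [Finset.sum_add_distrib]

theorem ex_smul (p : Fin M → ℝ) (w : Fin M → Fin M → ℝ) (c : ℝ) (φ : Finset (Fin M) → ℝ) (t : ℝ) :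
    ex p w (fun X => c * φ X) t = c * ex p w φ t := by
  unfold ex
  rw [Finset.mul_sum]
  refine Finset.sum_congr rfl fun Y _ => by ring

/-- comparison lemma -/
theorem compare {f f' : ℝ → ℝ} {c : ℝ} (hf : ∀ t, HasDerivAt f (f' t) t)
    (h : ∀ t, 0 ≤ t → -c * f t ≤ f' t) (h0 : 0 ≤ f 0) {t : ℝ} (ht : 0 ≤ t) : 0 ≤ f t := by
  have hg : ∀ s, HasDerivAt (fun s => f s * Real.exp (c * s))
      (f' s * Real.exp (c * s) + f s * (Real.exp (c * s) * (c * 1))) s := by
    intro s
    exact (hf s).mul (((hasDerivAt_id s).const_mul c).exp)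
  have hm : MonotoneOn (fun s => f s * Real.exp (c * s)) (Set.Ici 0) := by
    refine monotoneOn_of_deriv_nonneg (convex_Ici 0)
      (fun s _ => (hg s).continuousAt.continuousWithinAt)
      (fun s _ => (hg s).differentiableAt.differentiableWithinAt) ?_
    intro s hs
    rw [interior_Ici] at hs
    rw [(hg s).deriv]
    have := h s (le_of_lt hs)
    have e := Real.exp_pos (c * s)
    nlinarith
  have := hm (Set.mem_Ici.2 le_rfl) (Set.mem_Ici.2 ht) ht
  simp only [mul_zero, Real.exp_zero, mul_one] at this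
  have e := Real.exp_pos (c * t)
  by_contra hn
  push Not at hn
  nlinarith

theorem compare_strict {f f' : ℝ → ℝ} {c : ℝ} (hf : ∀ t, HasDerivAt f (f' t) t)
    (h : ∀ t, 0 < t → -c * f t < f' t) (h0 : 0 ≤ f 0) {t : ℝ} (ht : 0 < t) : 0 < f t := by
  have hg : ∀ s, HasDerivAt (fun s => f s * Real.exp (c * s))
      (f' s * Real.exp (c * s) + f s * (Real.exp (c * s) * (c * 1))) s := by
    intro s
    exact (hf s).mul (((hasDerivAt_id s).const_mul c).exp)
  have hm : StrictMonoOn (fun s => f s * Real.exp (c * s)) (Set.Ici 0) := by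
    refine strictMonoOn_of_deriv_pos (convex_Ici 0)
      (fun s _ => (hg s).continuousAt.continuousWithinAt) ?_
    intro s hs
    rw [interior_Ici] at hs
    rw [(hg s).deriv]
    have := h s hs
    have e := Real.exp_pos (c * s)
    nlinarith
  have := hm (Set.mem_Ici.2 le_rfl) (Set.mem_Ici.2 ht.le) ht
  simp only [mul_zero, Real.exp_zero, mul_one] at this
  have e := Real.exp_pos (c * t)
  by_contra hn
  push Not at hn
  nlinarith

/-- the law in terms of the last jump -/
theorem law_deriv (p : Fin M → ℝ) (w : Fin M → Fin M → ℝ) (t : ℝ) (Y : Finset (Fin M)) :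
    HasDerivAt (fun s => law p w s Y)
      (∑ j ∈ Y, law p w t (Y.erase j) * rate p w (Y.erase j) j -
        (∑ j ∈ Yᶜ, rate p w Y j) * law p w t Y) t := by
  have h := law_hasDeriv p w t Y
  convert h using 1
  unfold gen
  simp_rw [mul_sub, Finset.sum_sub_distrib, mul_sub]
  rw [Finset.sum_sub_distrib]
  congr 1
  · simp_rw [Finset.mul_sum]
    rw [Finset.sum_sigma', ← Finset.sum_filter_add_sum_filter_not _
      (fun a : (_ : Finset (Fin M)) × Fin M => Y = insert a.2 a.1)]
    have h2 : ∑ x ∈ (Finset.univ.sigma fun X : Finset (Fin M) => Xᶜ) with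
        ¬ Y = insert x.2 x.1, law p w t x.1 *
        (rate p w x.1 x.2 * (if Y = insert x.2 x.1 then (1:ℝ) else 0)) = 0 := by
      refine Finset.sum_eq_zero fun a ha => ?_
      rw [Finset.mem_filter] at ha
      simp [ha.2]
    rw [h2, add_zero]
    refine Finset.sum_bij' (fun j _ => ⟨Y.erase j, j⟩) (fun a _ => a.2) ?_ ?_ ?_ ?_ ?_
    · intro j hj
      simp [Finset.insert_erase hj]
    · rintro ⟨X, j⟩ ha
      simp only [Finset.mem_filter] at ha
      rw [ha.2]
      simp
    · intro j hj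
      rfl
    · rintro ⟨X, j⟩ ha
      simp only [Finset.mem_filter, Finset.mem_sigma, Finset.mem_compl] at ha
      rw [ha.2]
      simp [Finset.erase_insert ha.1.2]
    · intro j hj
      simp [Finset.insert_erase hj]
  · simp only [mul_ite, mul_one, mul_zero]
    rw [Finset.sum_eq_single Y]
    · simp [mul_comm]
    · intro X _ hX
      simp [hX.symm]
    · simp

theorem law_nonneg (p : Fin M → ℝ) (w : Fin M → Fin M → ℝ) (hp : ∀ j, 0 ≤ p j)
    (hw : ∀ k j, 0 ≤ w k j) (Y : Finset (Fin M)) {t : ℝ} (ht : 0 ≤ t) : 0 ≤ law p w t Y := by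
  induction Y using Finset.strongInduction generalizing t with
  | H Y ih =>
    refine compare (f := fun s => law p w s Y) (c := ∑ j ∈ Yᶜ, rate p w Y j)
      (fun s => law_deriv p w s Y) (fun s hs => ?_) ?_ ht
    · have : 0 ≤ ∑ j ∈ Y, law p w s (Y.erase j) * rate p w (Y.erase j) j := by
        refine Finset.sum_nonneg fun j hj => mul_nonneg (ih _ (Finset.erase_ssubset hj) hs) ?_
        exact add_nonneg (hp j) (Finset.sum_nonneg fun k _ => hw k j)
      linarith
    · rw [law_zero]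
      split_ifs <;> norm_num

theorem law_pos (p : Fin M → ℝ) (w : Fin M → Fin M → ℝ) (hp : ∀ j, 0 < p j)
    (hw : ∀ k j, 0 ≤ w k j) (Y : Finset (Fin M)) {t : ℝ} (ht : 0 < t) : 0 < law p w t Y := by
  induction Y using Finset.strongInduction generalizing t with
  | H Y ih =>
    rcases Y.eq_empty_or_nonempty with hY | hY
    · subst hY
      have h1 : ∀ s, HasDerivAt (fun s => law p w s ∅ - Real.exp (-(∑ j : Fin M, p j) * s))
          (-(∑ j : Fin M, p j) * (law p w s ∅ - Real.exp (-(∑ j : Fin M, p j) * s))) s := by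
        intro s
        have a := law_deriv p w s ∅
        have b := ((hasDerivAt_id s).const_mul (-(∑ j : Fin M, p j))).exp
        have e : (∑ j ∈ (∅ : Finset (Fin M)), law p w s ((∅ : Finset (Fin M)).erase j) *
            rate p w ((∅ : Finset (Fin M)).erase j) j -
            (∑ j ∈ (∅ : Finset (Fin M))ᶜ, rate p w ∅ j) * law p w s ∅) -
            Real.exp (-(∑ j : Fin M, p j) * id s) * (-(∑ j : Fin M, p j) * 1) =
            -(∑ j : Fin M, p j) * (law p w s ∅ - Real.exp (-(∑ j : Fin M, p j) * s)) := by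
          simp only [Finset.sum_empty, Finset.compl_empty, rate, add_zero, id]
          ring
        have := a.sub b
        rw [e] at this
        exact this
      have h0 : (0:ℝ) ≤ law p w 0 ∅ - Real.exp (-(∑ j : Fin M, p j) * 0) := by
        rw [law_zero]; simp
      have h2 := compare (f := fun s => law p w s ∅ - Real.exp (-(∑ j : Fin M, p j) * s))
        (c := ∑ j : Fin M, p j) h1 (fun s _ => le_of_eq (by ring)) h0 ht.le
      have := Real.exp_pos (-(∑ j : Fin M, p j) * t)
      linarith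
    · refine compare_strict (f := fun s => law p w s Y) (c := ∑ j ∈ Yᶜ, rate p w Y j)
        (fun s => law_deriv p w s Y) (fun s hs => ?_) ?_ ht
      · have : 0 < ∑ j ∈ Y, law p w s (Y.erase j) * rate p w (Y.erase j) j := by
          refine Finset.sum_pos (fun j hj => mul_pos (ih _ (Finset.erase_ssubset hj) hs) ?_) hY
          exact add_pos_of_pos_of_nonneg (hp j) (Finset.sum_nonneg fun k _ => hw k j)
        linarith
      · rw [law_zero]
        split_ifs <;> norm_num

theorem ex_nonneg (p : Fin M → ℝ) (w : Fin M → Fin M → ℝ) (hp : ∀ j, 0 ≤ p j)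
    (hw : ∀ k j, 0 ≤ w k j) {φ : Finset (Fin M) → ℝ} (hφ : ∀ X, 0 ≤ φ X) {t : ℝ} (ht : 0 ≤ t) :
    0 ≤ ex p w φ t :=
  Finset.sum_nonneg fun Y _ => mul_nonneg (law_nonneg p w hp hw Y ht) (hφ Y)

theorem ex_pos (p : Fin M → ℝ) (w : Fin M → Fin M → ℝ) (hp : ∀ j, 0 < p j)
    (hw : ∀ k j, 0 ≤ w k j) {φ : Finset (Fin M) → ℝ} (hφ : ∀ X, 0 ≤ φ X)
    (h : ∃ X, 0 < φ X) {t : ℝ} (ht : 0 < t) :
    0 < ex p w φ t := by
  obtain ⟨X, hX⟩ := h
  refine Finset.sum_pos' (fun Y _ => mul_nonneg (law_pos p w hp hw Y ht).le (hφ Y))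
    ⟨X, Finset.mem_univ _, mul_pos (law_pos p w hp hw X ht) hX⟩

end Pool.Agent.H78.Bass
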