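import Mathlib

/-!
# The Bass model on a network with `M` nodes

A network on the node set `Fin M` is given by the external rates `p j` and the internal weights
`w k j` (the influence of node `k` on node `j`).  The state of the Bass model is the set `X` of
adopters.  A node `j ∉ X` adopts at rate `p j + ∑ k ∈ X, w k j`; adoption is irreversible.  This is
a continuous-time Markov chain on the finite state space `Finset (Fin M)`.
-/

open scoped Matrix

namespace Pool.Agent.H78.Bass

variable {M : ℕ}

/-- Rate at which the non-adopter `j` adopts when `X` is the set of adopters. -/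
noncomputable def rate (p : Fin M → ℝ) (w : Fin M → Fin M → ℝ) (X : Finset (Fin M)) (j : Fin M) :
    ℝ :=
  p j + ∑ k ∈ X, w k j

/-- The generator (`Q`-matrix) of the Bass model: for every `j ∉ X` the chain jumps from `X` to
`X ∪ {j}` at rate `rate p w X j`. -/
noncomputable def gen (p : Fin M → ℝ) (w : Fin M → Fin M → ℝ) :
    Matrix (Finset (Fin M)) (Finset (Fin M)) ℝ :=
  fun X Y => ∑ j ∈ Xᶜ, rate p w X j *
    ((if Y = insert j X then 1 else 0) - (if Y = X then 1 else 0))

/-- `law p w t Y` is the probability that at time `t` the set of adopters is `Y`, when there are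
no adopters at time `0` (row `∅` of the transition matrix `exp (t • gen)`). -/
noncomputable def law (p : Fin M → ℝ) (w : Fin M → Fin M → ℝ) (t : ℝ) (Y : Finset (Fin M)) : ℝ :=
  (NormedSpace.exp (t • gen p w) : Matrix (Finset (Fin M)) (Finset (Fin M)) ℝ) ∅ Y

/-- The expected adoption level `f(t) = (1 / M) E |X(t)|`. -/
noncomputable def level (p : Fin M → ℝ) (w : Fin M → Fin M → ℝ) (t : ℝ) : ℝ :=
  (∑ Y : Finset (Fin M), law p w t Y * (Y.card : ℝ)) / M

/-- `w` is a network in the class `𝓖(p, q, M)` (with all `p j = p`): nonnegative weights, no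
self-influence, and total incoming weight `q` at every node. -/
structure IsHomogeneous (q : ℝ) (w : Fin M → Fin M → ℝ) : Prop where
  nonneg : ∀ k j, 0 ≤ w k j
  diag : ∀ j, w j j = 0
  sum : ∀ j, ∑ k, w k j = q

/-- The weights of the homogeneous complete network. -/
noncomputable def completeW (q : ℝ) : Fin M → Fin M → ℝ :=
  fun k j => if k = j then 0 else q / ((M : ℝ) - 1)

end Pool.Agent.H78.Bass
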