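import Pool.Agent.H78.Bass.Main

namespace Pool.Agent.H78.Bass

variable {M : ℕ}

theorem complete_hom (hM : 2 ≤ M) {q : ℝ} (hq : 0 < q) :
    IsHomogeneous q (completeW q : Fin M → Fin M → ℝ) := by
  have hM' : (0 : ℝ) < (M : ℝ) - 1 := by
    have : (2 : ℝ) ≤ M := by exact_mod_cast hM
    linarith
  refine ⟨fun k j => ?_, fun j => ?_, fun j => ?_⟩
  · unfold completeW
    split_ifs
    · exact le_rfl
    · positivity
  · simp [completeW]
  · unfold completeW
    rw [← Finset.add_sum_erase _ _ (Finset.mem_univ j)]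
    simp only [if_true, zero_add]
    rw [Finset.sum_congr rfl (g := fun _ => q / ((M : ℝ) - 1))]
    · rw [Finset.sum_const, Finset.card_erase_of_mem (Finset.mem_univ j), Finset.card_univ,
        Fintype.card_fin, nsmul_eq_mul, Nat.cast_sub (by omega)]
      push_cast
      field_simp
    · intro k hk
      rw [if_neg (Finset.ne_of_mem_erase hk)]

theorem balanced_exc {a : ℝ} {w : Fin M → Fin M → ℝ} (hd : ∀ j, w j j = 0)
    (h : ∀ k j, k ≠ j → w k j + w j k = 2 * a) (Z : Finset (Fin M)) : exc a w Z = 0 := by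
  unfold exc
  have h1 : 2 * wt w Z = ∑ j ∈ Z, ∑ k ∈ Z, (if k = j then 0 else 2 * a) := by
    have : wt w Z = ∑ j ∈ Z, ∑ k ∈ Z, w j k := by
      unfold wt
      rw [Finset.sum_comm]
    rw [two_mul]
    nth_rewrite 2 [this]
    unfold wt
    rw [← Finset.sum_add_distrib]
    refine Finset.sum_congr rfl fun j _ => ?_
    rw [← Finset.sum_add_distrib]
    refine Finset.sum_congr rfl fun k _ => ?_
    split_ifs with hk
    · rw [hk, hd]; simp
    · exact h k j hk
  have h2 : ∀ j ∈ Z, ∑ k ∈ Z, (if k = j then (0:ℝ) else 2 * a) = ((Z.card : ℝ) - 1) * (2 * a) := by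
    intro j hj
    rw [← Finset.add_sum_erase _ _ hj]
    simp only [if_true, zero_add]
    rw [Finset.sum_congr rfl (g := fun _ => 2 * a)]
    · rw [Finset.sum_const, Finset.card_erase_of_mem hj, nsmul_eq_mul, Nat.cast_sub
        (Finset.card_pos.2 ⟨j, hj⟩)]
      push_cast
      ring
    · intro k hk
      rw [if_neg (Finset.ne_of_mem_erase hk)]
  rw [Finset.sum_congr rfl h2, Finset.sum_const, nsmul_eq_mul] at h1
  linarith

theorem complete_exc (q : ℝ) (Z : Finset (Fin M)) :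
    exc (q / ((M : ℝ) - 1)) (completeW q : Fin M → Fin M → ℝ) Z = 0 := by
  refine balanced_exc (fun j => by simp [completeW]) (fun k j hkj => ?_) Z
  simp [completeW, hkj, hkj.symm]
  ring

theorem quad_symm {a : ℝ} {w : Fin M → Fin M → ℝ} (h : ∀ k j, w k j = w j k)
    (Z : Finset (Fin M)) : quad a w Z = 2 * ∑ j ∈ Z, di a w Z j ^ 2 := by
  unfold quad
  rw [Finset.mul_sum]
  refine Finset.sum_congr rfl fun j _ => ?_
  have : dou a w Z j = di a w Z j := by
    unfold dou di
    simp_rw [h j]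
  rw [this]
  ring

theorem quad_three {a q : ℝ} {w : Fin 3 → Fin 3 → ℝ} (hd : ∀ j, w j j = 0)
    (hs : ∀ j, ∑ k, w k j = q) (ha : ((3 : ℝ) - 1) * a = q)
    (Z : Finset (Fin 3)) (hZ : 2 ≤ Z.card) : 0 ≤ quad a w Z := by
  have hle : Z.card ≤ 3 := by simpa using Finset.card_le_univ Z
  rcases (show Z.card = 2 ∨ Z.card = 3 by omega) with h | h
  · obtain ⟨x, y, hxy, rfl⟩ := Finset.card_eq_two.1 h
    unfold quad di dou
    rw [Finset.sum_pair hxy, Finset.sum_pair hxy, Finset.sum_pair hxy, Finset.sum_pair hxy,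
      Finset.sum_pair hxy, h, hd, hd]
    push_cast
    nlinarith [sq_nonneg (w x y + w y x - 2 * a)]
  · have : Z = Finset.univ := (Finset.card_eq_iff_eq_univ Z).1 (by simpa using h)
    subst this
    have h0 : ∀ j, di a w Finset.univ j = 0 := by
      intro j
      unfold di
      rw [hs j, ← ha]
      simp
    unfold quad
    simp [h0]

theorem level_le {p q : ℝ} (hM : 2 ≤ M) (hp : 0 < p) (hq : 0 < q) {w : Fin M → Fin M → ℝ}
    (hw : IsHomogeneous q w)
    (hQ : ∀ Z : Finset (Fin M), 2 ≤ Z.card → 0 ≤ quad (q / ((M : ℝ) - 1)) w Z)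
    {t : ℝ} (ht : 0 ≤ t) :
    level (fun _ => p) w t ≤ level (fun _ : Fin M => p) (completeW q) t := by
  have hM' : (0 : ℝ) < (M : ℝ) - 1 := by
    have : (2 : ℝ) ≤ M := by exact_mod_cast hM
    linarith
  have ha : ((M : ℝ) - 1) * (q / ((M : ℝ) - 1)) = q := by field_simp
  have ha0 : 0 ≤ q / ((M : ℝ) - 1) := by positivity
  rw [level_eq (by omega), level_eq (by omega)]
  have h := AA_compare (p := p) ha0 hw
    (fun k t ht => DD_nonneg (by omega) hp.le ha0 hw ha hQ k ht)
    (complete_hom hM hq) (complete_exc q) 0 ht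
  have hMM : (0 : ℝ) < M := by linarith
  have := div_le_div_of_nonneg_right h hMM.le
  linarith

theorem level_lt {p q : ℝ} (hM : 2 ≤ M) (hp : 0 < p) (hq : 0 < q) {w : Fin M → Fin M → ℝ}
    (hw : IsHomogeneous q w)
    (hQ : ∀ Z : Finset (Fin M), 2 ≤ Z.card → 0 ≤ quad (q / ((M : ℝ) - 1)) w Z)
    (hpos : ∃ Z : Finset (Fin M), 2 ≤ Z.card ∧ 0 < quad (q / ((M : ℝ) - 1)) w Z)
    {t : ℝ} (ht : 0 < t) :
    level (fun _ => p) w t < level (fun _ : Fin M => p) (completeW q) t := by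
  have hM' : (0 : ℝ) < (M : ℝ) - 1 := by
    have : (2 : ℝ) ≤ M := by exact_mod_cast hM
    linarith
  have ha : ((M : ℝ) - 1) * (q / ((M : ℝ) - 1)) = q := by field_simp
  have ha0 : 0 ≤ q / ((M : ℝ) - 1) := by positivity
  set a := q / ((M : ℝ) - 1) with hadef
  have hDn : ∀ k s, 0 ≤ s → 0 ≤ DD p a w k s :=
    fun k s hs => DD_nonneg (by omega) hp.le ha0 hw ha hQ k hs
  have hD : ∀ s, 0 < s → 0 < DD p a w 0 s := by
    intro s hs
    refine compare_strict (c := ((0 : ℕ) + 2 : ℝ) * (p + q) - ((0 : ℕ) + 2 : ℝ) *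
      (((0 : ℕ) : ℝ) + 1) * a)
      (fun s => DD_deriv hw.diag hw.sum p a 0 s) (fun s hs => ?_)
      (DD_zero hw.sum ha p 0).ge hs
    have h1 := hDn 1 s hs.le
    have h2 : 0 < ex (fun _ => p) w (fun X => src a w 0 Xᶜ) s := by
      refine ex_pos _ _ (fun _ => hp) hw.nonneg (fun X => src_nonneg hQ 0 _) ?_ hs
      obtain ⟨Z, hZ, hZ2⟩ := hpos
      refine ⟨Zᶜ, ?_⟩
      rw [compl_compl]
      unfold src
      rw [if_pos hZ]
      simpa using hZ2
    have h3 : 0 ≤ (((0 : ℕ) : ℝ) + 2) * (((0 : ℕ) : ℝ) + 1) * a * DD p a w (0 + 1) s := by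
      positivity
    linarith
  have hA : 0 < AA p w 0 t - AA p (completeW q : Fin M → Fin M → ℝ) 0 t := by
    refine compare_strict (f := fun s => AA p w 0 s - AA p (completeW q : Fin M → Fin M → ℝ) 0 s)
      (c := (((0 : ℕ) : ℝ) + 1) * (p + q) - (((0 : ℕ) : ℝ) + 1) * ((0 : ℕ) : ℝ) * a)
      (fun s => (AA_deriv hw.diag hw.sum p a 0 s).sub
        (AA_deriv (complete_hom hM hq).diag (complete_hom hM hq).sum p a 0 s))
      (fun s hs => ?_) ?_ ht
    · have h1 := AA_compare (p := p) ha0 hw hDn (complete_hom hM hq) (complete_exc q) (0 + 1) hs.le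
      have h2 := hD s hs
      have h4 := DD_eq_zero (p := p) (complete_exc (M := M) q) 0 s
      rw [← hadef] at h4
      rw [h4]
      simp only [if_true, add_zero]
      have h6 : 0 ≤ (((0 : ℕ) : ℝ) + 2) * (((0 : ℕ) : ℝ) + 1) * a *
          (AA p w (0 + 1) s - AA p (completeW q : Fin M → Fin M → ℝ) (0 + 1) s) := by
        have : 0 ≤ AA p w (0 + 1) s - AA p (completeW q : Fin M → Fin M → ℝ) (0 + 1) s := by linarith
        positivity
      nlinarith
    · unfold AA
      rw [ex_zero, ex_zero]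
      simp
  rw [level_eq (by omega), level_eq (by omega)]
  have hMM : (0 : ℝ) < M := by linarith
  have := div_lt_div_of_pos_right (sub_pos.1 hA) hMM
  linarith

theorem level_balanced {p q : ℝ} (hM : 2 ≤ M) (hq : 0 < q) {w : Fin M → Fin M → ℝ}
    (hw : IsHomogeneous q w) (h : ∀ Z : Finset (Fin M), exc (q / ((M : ℝ) - 1)) w Z = 0)
    {t : ℝ} (ht : 0 ≤ t) :
    level (fun _ => p) w t = level (fun _ : Fin M => p) (completeW q) t := by
  have hM' : (0 : ℝ) < (M : ℝ) - 1 := by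
    have : (2 : ℝ) ≤ M := by exact_mod_cast hM
    linarith
  have ha0 : 0 ≤ q / ((M : ℝ) - 1) := by positivity
  rw [level_eq (by omega), level_eq (by omega)]
  have h1 := AA_compare (p := p) ha0 hw (fun k t _ => (DD_eq_zero h k t).ge)
    (complete_hom hM hq) (complete_exc q) 0 ht
  have h2 := AA_compare (p := p) ha0 (complete_hom hM hq)
    (fun k t _ => (DD_eq_zero (complete_exc q) k t).ge) hw h 0 ht
  rw [le_antisymm h1 h2]

end Pool.Agent.H78.Bass
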