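import Pool.Agent.H78.Bass.Basic

namespace Pool.Agent.H78.Bass

variable {M : ℕ}

/-- internal weight of `Z` -/
noncomputable def wt (w : Fin M → Fin M → ℝ) (Z : Finset (Fin M)) : ℝ := ∑ j ∈ Z, ∑ k ∈ Z, w k j

/-- excess internal weight of `Z`, `a = q / (M - 1)` -/
noncomputable def exc (a : ℝ) (w : Fin M → Fin M → ℝ) (Z : Finset (Fin M)) : ℝ :=
  wt w Z - (Z.card : ℝ) * ((Z.card : ℝ) - 1) * a

/-- excess of the incoming weight of `j` from `Z` -/
noncomputable def di (a : ℝ) (w : Fin M → Fin M → ℝ) (Z : Finset (Fin M)) (j : Fin M) : ℝ :=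
  ∑ k ∈ Z, w k j - ((Z.card : ℝ) - 1) * a

/-- excess of the outgoing weight of `j` to `Z` -/
noncomputable def dou (a : ℝ) (w : Fin M → Fin M → ℝ) (Z : Finset (Fin M)) (j : Fin M) : ℝ :=
  ∑ k ∈ Z, w j k - ((Z.card : ℝ) - 1) * a

/-- the quadratic quantity whose sign decides -/
noncomputable def quad (a : ℝ) (w : Fin M → Fin M → ℝ) (Z : Finset (Fin M)) : ℝ :=
  ∑ j ∈ Z, di a w Z j * (di a w Z j + dou a w Z j)

theorem sum_di (a : ℝ) (w : Fin M → Fin M → ℝ) (Z : Finset (Fin M)) :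
    ∑ j ∈ Z, di a w Z j = exc a w Z := by
  unfold di exc wt
  rw [Finset.sum_sub_distrib, Finset.sum_const, nsmul_eq_mul]
  ring

theorem sum_dou (a : ℝ) (w : Fin M → Fin M → ℝ) (Z : Finset (Fin M)) :
    ∑ j ∈ Z, dou a w Z j = exc a w Z := by
  unfold dou exc wt
  rw [Finset.sum_sub_distrib, Finset.sum_const, nsmul_eq_mul, Finset.sum_comm]
  ring

theorem wt_erase {w : Fin M → Fin M → ℝ} (hd : ∀ j, w j j = 0) (Z : Finset (Fin M)) {j : Fin M}
    (hj : j ∈ Z) : wt w (Z.erase j) = wt w Z - ∑ k ∈ Z, w k j - ∑ k ∈ Z, w j k := by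
  unfold wt
  have h1 : ∀ l, ∑ k ∈ Z, w k l = w j l + ∑ k ∈ Z.erase j, w k l := fun l =>
    (Finset.add_sum_erase Z (fun k => w k l) hj).symm
  have h2 : ∑ l ∈ Z, ∑ k ∈ Z, w k l = ∑ k ∈ Z, w k j + ∑ l ∈ Z.erase j, ∑ k ∈ Z, w k l :=
    (Finset.add_sum_erase Z (fun l => ∑ k ∈ Z, w k l) hj).symm
  have h3 : ∑ l ∈ Z.erase j, ∑ k ∈ Z, w k l =
      ∑ l ∈ Z.erase j, w j l + ∑ l ∈ Z.erase j, ∑ k ∈ Z.erase j, w k l := by
    rw [← Finset.sum_add_distrib]
    exact Finset.sum_congr rfl fun l _ => h1 l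
  have h4 : ∑ l ∈ Z, w j l = w j j + ∑ l ∈ Z.erase j, w j l :=
    (Finset.add_sum_erase Z (fun l => w j l) hj).symm
  rw [h2, h3, h4, hd j]
  ring

theorem exc_erase {w : Fin M → Fin M → ℝ} (hd : ∀ j, w j j = 0) (a : ℝ) (Z : Finset (Fin M))
    {j : Fin M} (hj : j ∈ Z) :
    exc a w (Z.erase j) = exc a w Z - di a w Z j - dou a w Z j := by
  unfold exc di dou
  rw [wt_erase hd Z hj, Finset.card_erase_of_mem hj]
  have : 1 ≤ Z.card := Finset.card_pos.2 ⟨j, hj⟩
  push_cast [Nat.cast_sub this]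
  ring

theorem rate_compl {q : ℝ} {w : Fin M → Fin M → ℝ} (hs : ∀ j, ∑ k, w k j = q) (p a : ℝ)
    (Z : Finset (Fin M)) (j : Fin M) :
    rate (fun _ => p) w Zᶜ j = (p + q - ((Z.card : ℝ) - 1) * a) - di a w Z j := by
  unfold rate di
  have := Finset.sum_add_sum_compl Z (fun k => w k j)
  rw [hs j] at this
  linarith

theorem genF_compl (p : ℝ) (w : Fin M → Fin M → ℝ) (φ : Finset (Fin M) → ℝ)
    (Z : Finset (Fin M)) : genF (fun _ => p) w (fun X => φ Xᶜ) Zᶜ =
      ∑ j ∈ Z, rate (fun _ => p) w Zᶜ j * (φ (Z.erase j) - φ Z) := by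
  unfold genF
  rw [compl_compl]
  refine Finset.sum_congr rfl fun j _ => ?_
  have e1 : (insert j Zᶜ)ᶜ = Z.erase j := by rw [Finset.compl_insert, compl_compl]
  change rate (fun _ => p) w Zᶜ j * (φ (insert j Zᶜ)ᶜ - φ Zᶜᶜ) = _
  rw [e1, compl_compl]

/-- test functions -/
noncomputable def Phi (a : ℝ) (w : Fin M → Fin M → ℝ) (k : ℕ) (Z : Finset (Fin M)) : ℝ :=
  ((Z.card - 2).choose k : ℝ) * exc a w Z

noncomputable def Psi (k : ℕ) (Z : Finset (Fin M)) : ℝ := (Z.card.choose (k + 1) : ℝ)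

theorem exc_small {w : Fin M → Fin M → ℝ} (hd : ∀ j, w j j = 0) (a : ℝ) (Z : Finset (Fin M))
    (hZ : Z.card ≤ 1) : exc a w Z = 0 := by
  rcases Nat.le_one_iff_eq_zero_or_eq_one.1 hZ with h | h
  · rw [Finset.card_eq_zero] at h
    subst h
    simp [exc, wt]
  · obtain ⟨j, rfl⟩ := Finset.card_eq_one.1 h
    simp [exc, wt, hd]

theorem choose_rel1 (n k : ℕ) : ((n : ℝ) - k) * (n.choose k : ℝ) = n * ((n - 1).choose k : ℝ) := by
  rcases n with _ | n
  · rcases k with _ | k <;> simp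
  · rcases le_or_gt k (n + 1) with h | h
    · have := Nat.choose_mul_succ_eq n k
      have h2 : ((n.choose k : ℕ) : ℝ) * ((n : ℝ) + 1) =
          ((n + 1).choose k : ℝ) * ((n : ℝ) + 1 - k) := by
        have h3 : ((n.choose k * (n + 1) : ℕ) : ℝ) = (((n + 1).choose k * (n + 1 - k) : ℕ) : ℝ) := by
          rw [this]
        rw [Nat.cast_mul, Nat.cast_mul, Nat.cast_sub h] at h3
        push_cast at h3
        exact h3
      push_cast [Nat.add_sub_cancel]
      linarith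
    · rw [Nat.choose_eq_zero_of_lt h, Nat.choose_eq_zero_of_lt (by omega)]
      simp

theorem choose_rel2 (n k : ℕ) :
    ((k : ℝ) + 1) * (n.choose (k + 1) : ℝ) = ((n : ℝ) - k) * (n.choose k : ℝ) := by
  rcases le_or_gt k n with h | h
  · have := Nat.choose_succ_right_eq n k
    have h3 : ((n.choose (k + 1) * (k + 1) : ℕ) : ℝ) = ((n.choose k * (n - k) : ℕ) : ℝ) := by
      rw [this]
    rw [Nat.cast_mul, Nat.cast_mul, Nat.cast_sub h] at h3
    push_cast at h3
    linarith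
  · rw [Nat.choose_eq_zero_of_lt h, Nat.choose_eq_zero_of_lt (by omega)]
    simp

/-- the main identity -/
theorem genF_Phi {q : ℝ} {w : Fin M → Fin M → ℝ} (hd : ∀ j, w j j = 0)
    (hs : ∀ j, ∑ k, w k j = q) (p a : ℝ) (k : ℕ) (Z : Finset (Fin M)) :
    genF (fun _ => p) w (fun X => Phi a w k Xᶜ) Zᶜ =
      -(((k : ℝ) + 2) * (p + q) - ((k : ℝ) + 2) * ((k : ℝ) + 1) * a) * Phi a w k Z
      + ((k : ℝ) + 2) * ((k : ℝ) + 1) * a * Phi a w (k + 1) Z
      + ((((Z.card - 2).choose k : ℝ) - ((Z.card - 2 - 1).choose k : ℝ)) * exc a w Z ^ 2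
      + ((Z.card - 2 - 1).choose k : ℝ) * (if 2 ≤ Z.card then quad a w Z else 0)) := by
  rw [genF_compl]
  rcases le_or_gt Z.card 1 with h | h
  · have h0 : exc a w Z = 0 := exc_small hd a Z h
    have h1 : ∀ j, exc a w (Z.erase j) = 0 := fun j =>
      exc_small hd a _ ((Finset.card_erase_le).trans h)
    rw [if_neg (by omega)]
    simp [Phi, h0, h1]
  · rw [if_pos (show 2 ≤ Z.card from h)]
    obtain ⟨n, hn⟩ : ∃ n, Z.card = n + 2 := ⟨Z.card - 2, by omega⟩
    have e1 : ∀ j ∈ Z, rate (fun _ => p) w Zᶜ j * (Phi a w k (Z.erase j) - Phi a w k Z) =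
        ((p + q - ((n : ℝ) + 1) * a) - di a w Z j) * (((n - 1).choose k : ℝ) *
          (exc a w Z - di a w Z j - dou a w Z j) - (n.choose k : ℝ) * exc a w Z) := by
      intro j hj
      rw [rate_compl hs p a Z j]
      unfold Phi
      rw [exc_erase hd a Z hj, Finset.card_erase_of_mem hj, hn]
      have : n + 2 - 1 - 2 = n - 1 := by omega
      rw [this, Nat.add_sub_cancel]
      push_cast
      ring
    rw [Finset.sum_congr rfl e1]
    set s : ℝ := p + q - ((n : ℝ) + 1) * a with hsdef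
    set c : ℝ := ((n - 1).choose k : ℝ) with hc
    set d : ℝ := (n.choose k : ℝ) with hdd
    set U := exc a w Z with hU
    have e2 : ∑ j ∈ Z, (s - di a w Z j) * (c * (U - di a w Z j - dou a w Z j) - d * U) =
        (Z.card : ℝ) * (s * (c * U - d * U)) - (s * c + (c * U - d * U)) * ∑ j ∈ Z, di a w Z j
        - s * c * ∑ j ∈ Z, dou a w Z j + c * quad a w Z := by
      unfold quad
      have hcc : (Z.card : ℝ) * (s * (c * U - d * U)) = ∑ j ∈ Z, s * (c * U - d * U) := by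
        rw [Finset.sum_const, nsmul_eq_mul]
      rw [hcc, Finset.mul_sum, Finset.mul_sum, Finset.mul_sum,
        ← Finset.sum_sub_distrib, ← Finset.sum_sub_distrib, ← Finset.sum_add_distrib]
      refine Finset.sum_congr rfl fun j _ => ?_
      ring
    rw [e2, sum_di, sum_dou, ← hU]
    unfold Phi
    rw [← hU, hn, Nat.add_sub_cancel]
    rw [← hdd, ← hc]
    have r1 : ((n : ℝ) - k) * d = n * c := choose_rel1 n k
    have r2 : ((k : ℝ) + 1) * (n.choose (k + 1) : ℝ) = ((n : ℝ) - k) * d := choose_rel2 n k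
    have e3 : ((k : ℝ) + 2) * ((k : ℝ) + 1) * a * (((n.choose (k + 1) : ℕ) : ℝ) * U) =
        ((k : ℝ) + 2) * a * U * (((n : ℝ) - k) * d) := by
      rw [← r2]; ring
    rw [e3, hsdef]
    push_cast
    linear_combination (-(p + q - ((n : ℝ) + 1) * a) * U) * r1

theorem genF_Psi {q : ℝ} {w : Fin M → Fin M → ℝ} (hd : ∀ j, w j j = 0)
    (hs : ∀ j, ∑ k, w k j = q) (p a : ℝ) (k : ℕ) (Z : Finset (Fin M)) :
    genF (fun _ => p) w (fun X => Psi k Xᶜ) Zᶜ =
      -(((k : ℝ) + 1) * (p + q) - ((k : ℝ) + 1) * k * a) * Psi k Z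
      + ((k : ℝ) + 2) * ((k : ℝ) + 1) * a * Psi (k + 1) Z
      + (Phi a w k Z + if k = 0 then 0 else Phi a w (k - 1) Z) := by
  rw [genF_compl]
  rcases Nat.eq_zero_or_pos Z.card with h | h
  · rw [Finset.card_eq_zero] at h
    subst h
    simp [Psi, Phi, exc, wt]
  · obtain ⟨n, hn⟩ : ∃ n, Z.card = n + 1 := ⟨Z.card - 1, by omega⟩
    have e1 : ∀ j ∈ Z, rate (fun _ => p) w Zᶜ j * (Psi k (Z.erase j) - Psi k Z) =
        ((p + q - (n : ℝ) * a) - di a w Z j) * (-(n.choose k : ℝ)) := by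
      intro j hj
      rw [rate_compl hs p a Z j]
      unfold Psi
      rw [Finset.card_erase_of_mem hj, hn, Nat.add_sub_cancel, Nat.choose_succ_succ]
      push_cast
      ring
    rw [Finset.sum_congr rfl e1, ← Finset.sum_mul, Finset.sum_sub_distrib, sum_di,
      Finset.sum_const, nsmul_eq_mul]
    have hU : (Phi a w k Z + if k = 0 then 0 else Phi a w (k - 1) Z) =
        (n.choose k : ℝ) * exc a w Z := by
      rcases n with _ | n
      · rw [exc_small hd a Z (by omega)]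
        unfold Phi
        rw [exc_small hd a Z (by omega)]
        simp
      · unfold Phi
        have : Z.card - 2 = n := by omega
        rw [this]
        rcases k with _ | k
        · simp
        · rw [if_neg (by omega), Nat.add_sub_cancel, Nat.choose_succ_succ]
          push_cast
          ring
    rw [hU]
    unfold Psi
    rw [hn]
    have r1 : ((n : ℝ) + 1) * (n.choose k : ℝ) = ((n + 1).choose (k + 1) : ℝ) * ((k : ℝ) + 1) := by
      exact_mod_cast Nat.add_one_mul_choose_eq n k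
    have r2 : ((k : ℝ) + 2) * ((n + 1).choose (k + 2) : ℝ) =
        ((n : ℝ) - k) * ((n + 1).choose (k + 1) : ℝ) := by
      have := choose_rel2 (n + 1) (k + 1)
      push_cast at this
      have e : (k : ℝ) + 1 + 1 = k + 2 := by ring
      rw [e] at this
      linarith
    push_cast
    have e3 : ((k : ℝ) + 2) * ((k : ℝ) + 1) * a * (((n + 1).choose (k + 1 + 1) : ℕ) : ℝ) =
        ((k : ℝ) + 1) * a * (((n : ℝ) - k) * ((n + 1).choose (k + 1) : ℝ)) := by
      rw [← r2]; ring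
    rw [e3]
    linear_combination (-(p + q - (n : ℝ) * a)) * r1

end Pool.Agent.H78.Bass
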